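import Pool.Agent.Helper87.MD.Goals
import Pool.Agent.Helper88.Lang.LARGE

/-!
# Project MD (MP_c307ca_nt), packet LRG: large denominators
-/

set_option autoImplicit false

open Finset Filter
open scoped Classical

namespace Pool.Agent.Helper23.MD

open Pool.Agent.Helper98.Lang Pool.Agent.Helper87.MD

theorem mdLRG : LrgGoal := by
  intro hB ξ hξ ε ε' κ A c α hε hε' hκ hc hα0 hα1
  by_cases hAκ : A < κ
  · refine ⟨2, fun M d s hN hs hsα => ?_⟩
    obtain ⟨K, hK⟩ : ∃ K : ℕ, K = M * d := ⟨_, rfl⟩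
    rw [← hK] at hN hsα ⊢
    have hN1 : (1 : ℝ) < (K : ℝ) := by exact_mod_cast (by omega : 1 < K)
    rw [Finset.sum_eq_zero]
    · have : 0 ≤ Real.log (K : ℝ) := Real.log_nonneg hN1.le
      positivity
    · intro q hq
      exfalso
      rw [mem_filter, mem_Icc] at hq
      have h1 : (q : ℝ) ≤ (K : ℝ) ^ A := (Nat.le_floor_iff (by positivity)).1 hq.1.2
      have := Real.rpow_lt_rpow_of_exponent_lt hN1 hAκ
      linarith [hq.2]
  push Not at hAκ
  have hA0 : 0 < A := by linarith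
  set η := min ((ε - ε') / 2) (ε / 2) with hη
  have hη0 : 0 < η := lt_min (by linarith) (by linarith)
  have hη1 : η ≤ (ε - ε') / 2 := min_le_left _ _
  obtain ⟨C, N1, hC, hBl⟩ := hB ξ hξ ε η (κ / 2) A c α hε hη0 (by linarith) (by linarith) hc
    hα0 hα1
  set e := η - 1 - ε with he
  set C'' := C * (2 * A + 1) with hC''
  obtain ⟨N2, hN2⟩ := eventually_atTop.1
    (Pool.Agent.Helper88.Lang.ev_facts κ 0 C'' (e + 1) ε' hκ (by linarith) 0)
  refine ⟨max N1 N2, fun M d s hN hs hsα => ?_⟩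
  have hBl2 := fun R => hBl M d s R ((le_max_left _ _).trans hN) hs hsα
  obtain ⟨K, hK⟩ : ∃ K : ℕ, K = M * d := ⟨_, rfl⟩
  rw [← hK] at hN hsα hBl2 ⊢
  obtain ⟨a1, a2, a3, a4, a5⟩ := hN2 K ((le_max_right _ _).trans hN)
  have hN0 : (0 : ℝ) < K := by exact_mod_cast (by omega : 0 < K)
  set I := ⌊A * Real.log K / Real.log 2⌋₊ with hI
  set B : ℝ := C * K * Real.log K ^ e with hBdef
  have hB0 : 0 ≤ B := by
    have : 0 ≤ Real.log (K : ℝ) := by linarith
    positivity
  set f : ℕ → ℝ := fun q => (Nat.gcd d q : ℝ) * WW ξ c ε s M d q with hf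
  have hf0 : ∀ q, 0 ≤ f q := fun q => by
    rw [hf]
    positivity
  set S := (Icc 2 ⌊(K : ℝ) ^ A⌋₊).filter (fun q : ℕ => (K : ℝ) ^ κ ≤ q) with hS
  have hSq : ∀ q ∈ S, 2 ≤ q ∧ (q : ℝ) ≤ (K : ℝ) ^ A ∧ (K : ℝ) ^ κ ≤ q := by
    intro q hq
    rw [hS, mem_filter, mem_Icc] at hq
    exact ⟨hq.1.1, (Nat.le_floor_iff (by positivity)).1 hq.1.2, hq.2⟩
  have hmaps : ∀ q ∈ S, Nat.log 2 q ∈ range (I + 1) := by
    intro q hq
    obtain ⟨h1, h2, h3⟩ := hSq q hq
    have hi1 : 2 ^ Nat.log 2 q ≤ q := Nat.pow_log_le_self 2 (by omega)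
    rw [mem_range]
    have : Nat.log 2 q ≤ I := by
      apply Nat.le_floor
      rw [le_div_iff₀ (Real.log_pos (by norm_num))]
      have h4 : ((2 ^ Nat.log 2 q : ℕ) : ℝ) ≤ (K : ℝ) ^ A := le_trans (by exact_mod_cast hi1) h2
      have h5 := Real.log_le_log (by positivity) h4
      rw [Real.log_rpow hN0] at h5
      push_cast at h5
      rw [Real.log_pow] at h5
      exact h5
    omega
  have hone : ∀ i ∈ range (I + 1), ∑ q ∈ S.filter (fun q => Nat.log 2 q = i), f q ≤ B := by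
    intro i _
    by_cases hne : (S.filter (fun q => Nat.log 2 q = i)).Nonempty
    · obtain ⟨q, hq⟩ := hne
      rw [mem_filter] at hq
      obtain ⟨h1, h2, h3⟩ := hSq q hq.1
      have hi1 : 2 ^ Nat.log 2 q ≤ q := Nat.pow_log_le_self 2 (by omega)
      have hi2 : q < 2 ^ (Nat.log 2 q + 1) := Nat.lt_pow_succ_log_self (by norm_num) _
      rw [hq.2] at hi1 hi2
      have g1 : (K : ℝ) ^ (κ / 2) ≤ ((2 ^ i : ℕ) : ℝ) := by
        have h4 : (q : ℝ) < 2 * ((2 ^ i : ℕ) : ℝ) := by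
          have : q < 2 * 2 ^ i := by
            rw [pow_succ] at hi2
            omega
          exact_mod_cast this
        linarith
      have g2 : ((2 ^ i : ℕ) : ℝ) ≤ (K : ℝ) ^ A := le_trans (by exact_mod_cast hi1) h2
      have h5 := hBl2 (2 ^ i) g1 g2
      refine le_trans (sum_le_sum_of_subset_of_nonneg ?_ (fun q _ _ => hf0 q)) h5
      intro q' hq'
      rw [mem_filter] at hq'
      have h6 := (hSq q' hq'.1).1
      have hi3 : 2 ^ Nat.log 2 q' ≤ q' := Nat.pow_log_le_self 2 (by omega)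
      have hi4 : q' < 2 ^ (Nat.log 2 q' + 1) := Nat.lt_pow_succ_log_self (by norm_num) _
      rw [hq'.2] at hi3 hi4
      rw [mem_Ico]
      refine ⟨hi3, ?_⟩
      rw [pow_succ] at hi4
      omega
    · rw [not_nonempty_iff_eq_empty] at hne
      rw [hne, sum_empty]
      exact hB0
  have hsum : ∑ q ∈ S, f q ≤ ((I : ℝ) + 1) * B := by
    rw [← sum_fiberwise_of_maps_to hmaps]
    have := sum_le_card_nsmul (range (I + 1)) _ _ hone
    rw [card_range, nsmul_eq_mul] at this
    push_cast at this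
    exact this
  have e5 : ((I : ℝ) + 1) ≤ (2 * A + 1) * Real.log K := by
    have h1 : (I : ℝ) ≤ A * Real.log K / Real.log 2 := Nat.floor_le (by positivity)
    have h2 : A * Real.log K / Real.log 2 ≤ 2 * A * Real.log K := by
      rw [div_le_iff₀ (Real.log_pos (by norm_num))]
      have := Real.log_two_gt_d9
      have h3 : 0 < A * Real.log K := by positivity
      nlinarith
    linarith
  have e6 : ((I : ℝ) + 1) * B ≤ C'' * K * Real.log K ^ (e + 1) := by
    rw [Real.rpow_add (by linarith), Real.rpow_one, hC'']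
    calc ((I : ℝ) + 1) * B ≤ ((2 * A + 1) * Real.log K) * B :=
          mul_le_mul_of_nonneg_right e5 hB0
      _ = _ := by
          rw [hBdef]
          ring
  have h7 : 0 ≤ Real.sqrt (K : ℝ) := Real.sqrt_nonneg _
  linarith

end Pool.Agent.Helper23.MD
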